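import Mathlib

namespace Pool.Agent.Results.MP_dabbe0_pr.NotUniversal
open Finset Real

noncomputable section

def bit (x : Bool) : ℝ := if x then 1 else 0

def weight {n m : ℕ} (W : Fin n → Fin m → ℝ) (b : Fin n → ℝ) (c : Fin m → ℝ)
    (v : Fin n → Bool) : ℝ :=
  ∑ h : Fin m → Bool, exp (∑ i, b i * bit (v i) + ∑ j, c j * bit (h j) +
    ∑ i, ∑ j, bit (v i) * W i j * bit (h j))

def RBM (n m : ℕ) : Set ((Fin n → Bool) → ℝ) :=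
  {p | ∃ (W : Fin n → Fin m → ℝ) (b : Fin n → ℝ) (c : Fin m → ℝ),
    p = fun v => weight W b c v / ∑ u, weight W b c u}

def g (c a1 a2 a3 a4 x1 x2 x3 x4 : ℝ) : ℝ := |c + x1 * a1 + x2 * a2 + x3 * a3 + x4 * a4|

def S (x : ℝ) : Prop := x = 1 ∨ x = -1

lemma S.neg {x : ℝ} (h : S x) : S (-x) := by rcases h with rfl | rfl <;> simp [S]

def Q (t c a1 a2 a3 a4 d b1 b2 b3 b4 e f1 f2 f3 f4 : ℝ) : Prop :=
  ∃ k l1 l2 l3 l4 : ℝ, ∀ x1 x2 x3 x4, S x1 → S x2 → S x3 → S x4 →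
    |g c a1 a2 a3 a4 x1 x2 x3 x4 + g d b1 b2 b3 b4 x1 x2 x3 x4 + g e f1 f2 f3 f4 x1 x2 x3 x4 -
      (k + x1 * l1 + x2 * l2 + x3 * l3 + x4 * l4) - t * (x1 * x2 * x3 * x4)| ≤ 4

lemma face {p q r s y u v : ℝ} (hu : 0 ≤ u) (hv : 0 ≤ v) (hp : p = y + u + v)
    (hq : q = y - u - v) (hr : r = y + u - v) (hs : s = y - u + v) : |r| + |s| ≤ |p| + |q| := by
  have := le_abs_self p; have := neg_abs_le p; have := le_abs_self q; have := neg_abs_le q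
  rcases abs_cases r with h | h <;> rcases abs_cases s with h' | h' <;> linarith [h.1, h'.1]

lemma pos {p q r s y u v : ℝ} (hu : 0 ≤ u) (hv : 0 ≤ v) (hp : p = y + u + v)
    (hq : q = y - u - v) (hr : r = y + u - v) (hs : s = y - u + v) (h : |r| + |s| < |p| + |q|) :
    0 < p ∧ q < 0 := by
  have := le_abs_self r; have := neg_abs_le r; have := le_abs_self s; have := neg_abs_le s
  rcases abs_cases p with h | h <;> rcases abs_cases q with h' | h' <;> constructor <;>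
    linarith [h.1, h'.1, h.2, h'.2]

section
variable {t c a1 a2 a3 a4 d b1 b2 b3 b4 e f1 f2 f3 f4 : ℝ}

lemma F12 (c a3 a4 x3 x4 : ℝ) (h : 0 ≤ a1) (h' : 0 ≤ a2) :
    g c a1 a2 a3 a4 1 (-1) x3 x4 + g c a1 a2 a3 a4 (-1) 1 x3 x4 ≤
    g c a1 a2 a3 a4 1 1 x3 x4 + g c a1 a2 a3 a4 (-1) (-1) x3 x4 :=
  face (y := c + x3 * a3 + x4 * a4) h h' (by ring) (by ring) (by ring) (by ring)

lemma P12 (c a3 a4 x3 x4 : ℝ) (h : 0 ≤ a1) (h' : 0 ≤ a2)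
    (H : g c a1 a2 a3 a4 1 (-1) x3 x4 + g c a1 a2 a3 a4 (-1) 1 x3 x4 <
    g c a1 a2 a3 a4 1 1 x3 x4 + g c a1 a2 a3 a4 (-1) (-1) x3 x4) :
    0 < c + 1 * a1 + 1 * a2 + x3 * a3 + x4 * a4 ∧
    c + (-1) * a1 + (-1) * a2 + x3 * a3 + x4 * a4 < 0 :=
  pos (y := c + x3 * a3 + x4 * a4) h h' (by ring) (by ring) (by ring) (by ring) H

lemma F13 (c a2 a4 x2 x4 : ℝ) (h : 0 ≤ a1) (h' : 0 ≤ a3) :
    g c a1 a2 a3 a4 1 x2 (-1) x4 + g c a1 a2 a3 a4 (-1) x2 1 x4 ≤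
    g c a1 a2 a3 a4 1 x2 1 x4 + g c a1 a2 a3 a4 (-1) x2 (-1) x4 :=
  face (y := c + x2 * a2 + x4 * a4) h h' (by ring) (by ring) (by ring) (by ring)

lemma P13 (c a2 a4 x2 x4 : ℝ) (h : 0 ≤ a1) (h' : 0 ≤ a3)
    (H : g c a1 a2 a3 a4 1 x2 (-1) x4 + g c a1 a2 a3 a4 (-1) x2 1 x4 <
    g c a1 a2 a3 a4 1 x2 1 x4 + g c a1 a2 a3 a4 (-1) x2 (-1) x4) :
    0 < c + 1 * a1 + x2 * a2 + 1 * a3 + x4 * a4 ∧
    c + (-1) * a1 + x2 * a2 + (-1) * a3 + x4 * a4 < 0 :=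
  pos (y := c + x2 * a2 + x4 * a4) h h' (by ring) (by ring) (by ring) (by ring) H

lemma F14 (c a2 a3 x2 x3 : ℝ) (h : 0 ≤ a1) (h' : 0 ≤ a4) :
    g c a1 a2 a3 a4 1 x2 x3 (-1) + g c a1 a2 a3 a4 (-1) x2 x3 1 ≤
    g c a1 a2 a3 a4 1 x2 x3 1 + g c a1 a2 a3 a4 (-1) x2 x3 (-1) :=
  face (y := c + x2 * a2 + x3 * a3) h h' (by ring) (by ring) (by ring) (by ring)

lemma P14 (c a2 a3 x2 x3 : ℝ) (h : 0 ≤ a1) (h' : 0 ≤ a4)
    (H : g c a1 a2 a3 a4 1 x2 x3 (-1) + g c a1 a2 a3 a4 (-1) x2 x3 1 <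
    g c a1 a2 a3 a4 1 x2 x3 1 + g c a1 a2 a3 a4 (-1) x2 x3 (-1)) :
    0 < c + 1 * a1 + x2 * a2 + x3 * a3 + 1 * a4 ∧
    c + (-1) * a1 + x2 * a2 + x3 * a3 + (-1) * a4 < 0 :=
  pos (y := c + x2 * a2 + x3 * a3) h h' (by ring) (by ring) (by ring) (by ring) H

lemma F23 (c a1 a4 x1 x4 : ℝ) (h : 0 ≤ a2) (h' : 0 ≤ a3) :
    g c a1 a2 a3 a4 x1 1 (-1) x4 + g c a1 a2 a3 a4 x1 (-1) 1 x4 ≤
    g c a1 a2 a3 a4 x1 1 1 x4 + g c a1 a2 a3 a4 x1 (-1) (-1) x4 :=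
  face (y := c + x1 * a1 + x4 * a4) h h' (by ring) (by ring) (by ring) (by ring)

lemma P23 (c a1 a4 x1 x4 : ℝ) (h : 0 ≤ a2) (h' : 0 ≤ a3)
    (H : g c a1 a2 a3 a4 x1 1 (-1) x4 + g c a1 a2 a3 a4 x1 (-1) 1 x4 <
    g c a1 a2 a3 a4 x1 1 1 x4 + g c a1 a2 a3 a4 x1 (-1) (-1) x4) :
    0 < c + x1 * a1 + 1 * a2 + 1 * a3 + x4 * a4 ∧
    c + x1 * a1 + (-1) * a2 + (-1) * a3 + x4 * a4 < 0 :=
  pos (y := c + x1 * a1 + x4 * a4) h h' (by ring) (by ring) (by ring) (by ring) H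

lemma F24 (c a1 a3 x1 x3 : ℝ) (h : 0 ≤ a2) (h' : 0 ≤ a4) :
    g c a1 a2 a3 a4 x1 1 x3 (-1) + g c a1 a2 a3 a4 x1 (-1) x3 1 ≤
    g c a1 a2 a3 a4 x1 1 x3 1 + g c a1 a2 a3 a4 x1 (-1) x3 (-1) :=
  face (y := c + x1 * a1 + x3 * a3) h h' (by ring) (by ring) (by ring) (by ring)

lemma P24 (c a1 a3 x1 x3 : ℝ) (h : 0 ≤ a2) (h' : 0 ≤ a4)
    (H : g c a1 a2 a3 a4 x1 1 x3 (-1) + g c a1 a2 a3 a4 x1 (-1) x3 1 <
    g c a1 a2 a3 a4 x1 1 x3 1 + g c a1 a2 a3 a4 x1 (-1) x3 (-1)) :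
    0 < c + x1 * a1 + 1 * a2 + x3 * a3 + 1 * a4 ∧
    c + x1 * a1 + (-1) * a2 + x3 * a3 + (-1) * a4 < 0 :=
  pos (y := c + x1 * a1 + x3 * a3) h h' (by ring) (by ring) (by ring) (by ring) H

lemma F34 (c a1 a2 x1 x2 : ℝ) (h : 0 ≤ a3) (h' : 0 ≤ a4) :
    g c a1 a2 a3 a4 x1 x2 1 (-1) + g c a1 a2 a3 a4 x1 x2 (-1) 1 ≤
    g c a1 a2 a3 a4 x1 x2 1 1 + g c a1 a2 a3 a4 x1 x2 (-1) (-1) :=
  face (y := c + x1 * a1 + x2 * a2) h h' (by ring) (by ring) (by ring) (by ring)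

lemma P34 (c a1 a2 x1 x2 : ℝ) (h : 0 ≤ a3) (h' : 0 ≤ a4)
    (H : g c a1 a2 a3 a4 x1 x2 1 (-1) + g c a1 a2 a3 a4 x1 x2 (-1) 1 <
    g c a1 a2 a3 a4 x1 x2 1 1 + g c a1 a2 a3 a4 x1 x2 (-1) (-1)) :
    0 < c + x1 * a1 + x2 * a2 + 1 * a3 + 1 * a4 ∧
    c + x1 * a1 + x2 * a2 + (-1) * a3 + (-1) * a4 < 0 :=
  pos (y := c + x1 * a1 + x2 * a2) h h' (by ring) (by ring) (by ring) (by ring) H

lemma gp (c a1 a2 a3 a4 x1 x2 x3 x4 : ℝ) (h : 0 ≤ c + x1 * a1 + x2 * a2 + x3 * a3 + x4 * a4) :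
    g c a1 a2 a3 a4 x1 x2 x3 x4 = c + x1 * a1 + x2 * a2 + x3 * a3 + x4 * a4 := abs_of_nonneg h

lemma gn (c a1 a2 a3 a4 x1 x2 x3 x4 : ℝ) (h : c + x1 * a1 + x2 * a2 + x3 * a3 + x4 * a4 ≤ 0) :
    g c a1 a2 a3 a4 x1 x2 x3 x4 = -(c + x1 * a1 + x2 * a2 + x3 * a3 + x4 * a4) := abs_of_nonpos h

lemma sym {p q c z : ℝ} (hp : p = c + z) (hq : q = c - z) :
    (|p| - |q| ≤ 2 * |c| ∧ |q| - |p| ≤ 2 * |c| ∧ 2 * |c| ≤ |p| + |q| ∧ 2 * z ≤ |p| + |q| ∧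
    -(2 * z) ≤ |p| + |q|) ∧ (|p| + |q| ≤ 2 * |c| ∨ |p| + |q| ≤ 2 * z ∨ |p| + |q| ≤ -(2 * z)) := by
  rcases abs_cases p with h | h <;> rcases abs_cases q with h' | h' <;>
    rcases abs_cases c with h'' | h'' <;> refine ⟨⟨?_, ?_, ?_, ?_, ?_⟩, ?_⟩ <;>
    first | linarith [h.1, h'.1, h''.1, h.2, h'.2, h''.2]
          | (left; linarith [h.1, h'.1, h''.1, h.2, h'.2, h''.2])
          | (right; left; linarith [h.1, h'.1, h''.1, h.2, h'.2, h''.2])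
          | (right; right; linarith [h.1, h'.1, h''.1, h.2, h'.2, h''.2])

lemma E1 (c a1 a2 a3 a4 : ℝ) : let p := g c a1 a2 a3 a4 1 1 (-1) (-1); let q := g c a1 a2 a3 a4 (-1) (-1) 1 1
    let z := (1 * a1 + 1 * a2 + (-1) * a3 + (-1) * a4)
    (p - q ≤ 2 * |c| ∧ q - p ≤ 2 * |c| ∧ 2 * |c| ≤ p + q ∧ 2 * z ≤ p + q ∧ -(2 * z) ≤ p + q) ∧
    (p + q ≤ 2 * |c| ∨ p + q ≤ 2 * z ∨ p + q ≤ -(2 * z)) :=
  sym (by ring) (by ring)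

lemma E2 (c a1 a2 a3 a4 : ℝ) : let p := g c a1 a2 a3 a4 1 (-1) 1 (-1); let q := g c a1 a2 a3 a4 (-1) 1 (-1) 1
    let z := (1 * a1 + (-1) * a2 + 1 * a3 + (-1) * a4)
    (p - q ≤ 2 * |c| ∧ q - p ≤ 2 * |c| ∧ 2 * |c| ≤ p + q ∧ 2 * z ≤ p + q ∧ -(2 * z) ≤ p + q) ∧
    (p + q ≤ 2 * |c| ∨ p + q ≤ 2 * z ∨ p + q ≤ -(2 * z)) :=
  sym (by ring) (by ring)

lemma E3 (c a1 a2 a3 a4 : ℝ) : let p := g c a1 a2 a3 a4 1 (-1) (-1) 1; let q := g c a1 a2 a3 a4 (-1) 1 1 (-1)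
    let z := (1 * a1 + (-1) * a2 + (-1) * a3 + 1 * a4)
    (p - q ≤ 2 * |c| ∧ q - p ≤ 2 * |c| ∧ 2 * |c| ≤ p + q ∧ 2 * z ≤ p + q ∧ -(2 * z) ≤ p + q) ∧
    (p + q ≤ 2 * |c| ∨ p + q ≤ 2 * z ∨ p + q ≤ -(2 * z)) :=
  sym (by ring) (by ring)

lemma gneg1 (c a1 a2 a3 a4 x1 x2 x3 x4 : ℝ) : g c (-a1) a2 a3 a4 x1 x2 x3 x4 =
    g c a1 a2 a3 a4 (-x1) x2 x3 x4 := by unfold g; congr 1; ring

lemma flip1 (h : Q t c a1 a2 a3 a4 d b1 b2 b3 b4 e f1 f2 f3 f4) :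
    Q (-t) c (-a1) a2 a3 a4 d (-b1) b2 b3 b4 e (-f1) f2 f3 f4 := by
  obtain ⟨k, l1, l2, l3, l4, h⟩ := h
  refine ⟨k, -l1, l2, l3, l4, fun x1 x2 x3 x4 h1 h2 h3 h4 => ?_⟩
  simp only [gneg1]
  convert h _ _ _ _ h1.neg h2 h3 h4 using 2; ring

lemma gneg2 (c a1 a2 a3 a4 x1 x2 x3 x4 : ℝ) : g c a1 (-a2) a3 a4 x1 x2 x3 x4 =
    g c a1 a2 a3 a4 x1 (-x2) x3 x4 := by unfold g; congr 1; ring

lemma flip2 (h : Q t c a1 a2 a3 a4 d b1 b2 b3 b4 e f1 f2 f3 f4) :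
    Q (-t) c a1 (-a2) a3 a4 d b1 (-b2) b3 b4 e f1 (-f2) f3 f4 := by
  obtain ⟨k, l1, l2, l3, l4, h⟩ := h
  refine ⟨k, l1, -l2, l3, l4, fun x1 x2 x3 x4 h1 h2 h3 h4 => ?_⟩
  simp only [gneg2]
  convert h _ _ _ _ h1 h2.neg h3 h4 using 2; ring

lemma gneg3 (c a1 a2 a3 a4 x1 x2 x3 x4 : ℝ) : g c a1 a2 (-a3) a4 x1 x2 x3 x4 =
    g c a1 a2 a3 a4 x1 x2 (-x3) x4 := by unfold g; congr 1; ring

lemma flip3 (h : Q t c a1 a2 a3 a4 d b1 b2 b3 b4 e f1 f2 f3 f4) :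
    Q (-t) c a1 a2 (-a3) a4 d b1 b2 (-b3) b4 e f1 f2 (-f3) f4 := by
  obtain ⟨k, l1, l2, l3, l4, h⟩ := h
  refine ⟨k, l1, l2, -l3, l4, fun x1 x2 x3 x4 h1 h2 h3 h4 => ?_⟩
  simp only [gneg3]
  convert h _ _ _ _ h1 h2 h3.neg h4 using 2; ring

lemma gneg4 (c a1 a2 a3 a4 x1 x2 x3 x4 : ℝ) : g c a1 a2 a3 (-a4) x1 x2 x3 x4 =
    g c a1 a2 a3 a4 x1 x2 x3 (-x4) := by unfold g; congr 1; ring

lemma flip4 (h : Q t c a1 a2 a3 a4 d b1 b2 b3 b4 e f1 f2 f3 f4) :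
    Q (-t) c a1 a2 a3 (-a4) d b1 b2 b3 (-b4) e f1 f2 f3 (-f4) := by
  obtain ⟨k, l1, l2, l3, l4, h⟩ := h
  refine ⟨k, l1, l2, l3, -l4, fun x1 x2 x3 x4 h1 h2 h3 h4 => ?_⟩
  simp only [gneg4]
  convert h _ _ _ _ h1 h2 h3 h4.neg using 2; ring

lemma swap1 (h : Q t c a1 a2 a3 a4 d b1 b2 b3 b4 e f1 f2 f3 f4) :
    Q t c a2 a1 a3 a4 d b2 b1 b3 b4 e f2 f1 f3 f4 := by
  obtain ⟨k, l1, l2, l3, l4, h⟩ := h
  refine ⟨k, l2, l1, l3, l4, fun x2 x1 x3 x4 h2 h1 h3 h4 => ?_⟩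
  have r : ∀ c a1 a2 a3 a4, g c a2 a1 a3 a4 x2 x1 x3 x4 = g c a1 a2 a3 a4 x1 x2 x3 x4 :=
    fun _ _ _ _ _ => by unfold g; congr 1; ring
  rw [r c, r d, r e]
  convert h x1 x2 x3 x4 h1 h2 h3 h4 using 2; ring

lemma swap2 (h : Q t c a1 a2 a3 a4 d b1 b2 b3 b4 e f1 f2 f3 f4) :
    Q t c a1 a3 a2 a4 d b1 b3 b2 b4 e f1 f3 f2 f4 := by
  obtain ⟨k, l1, l2, l3, l4, h⟩ := h
  refine ⟨k, l1, l3, l2, l4, fun x1 x3 x2 x4 h1 h3 h2 h4 => ?_⟩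
  have r : ∀ c a1 a2 a3 a4, g c a1 a3 a2 a4 x1 x3 x2 x4 = g c a1 a2 a3 a4 x1 x2 x3 x4 :=
    fun _ _ _ _ _ => by unfold g; congr 1; ring
  rw [r c, r d, r e]
  convert h x1 x2 x3 x4 h1 h2 h3 h4 using 2; ring

lemma swap3 (h : Q t c a1 a2 a3 a4 d b1 b2 b3 b4 e f1 f2 f3 f4) :
    Q t c a1 a2 a4 a3 d b1 b2 b4 b3 e f1 f2 f4 f3 := by
  obtain ⟨k, l1, l2, l3, l4, h⟩ := h
  refine ⟨k, l1, l2, l4, l3, fun x1 x2 x4 x3 h1 h2 h4 h3 => ?_⟩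
  have r : ∀ c a1 a2 a3 a4, g c a1 a2 a4 a3 x1 x2 x4 x3 = g c a1 a2 a3 a4 x1 x2 x3 x4 :=
    fun _ _ _ _ _ => by unfold g; congr 1; ring
  rw [r c, r d, r e]
  convert h x1 x2 x3 x4 h1 h2 h3 h4 using 2; ring

lemma gm (c a1 a2 a3 a4 x1 x2 x3 x4 : ℝ) : g (-c) (-a1) (-a2) (-a3) (-a4) x1 x2 x3 x4 =
    g c a1 a2 a3 a4 x1 x2 x3 x4 := by unfold g; rw [← abs_neg]; congr 1; ring

lemma neg2 (h : Q t c a1 a2 a3 a4 d b1 b2 b3 b4 e f1 f2 f3 f4) :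
    Q t c a1 a2 a3 a4 (-d) (-b1) (-b2) (-b3) (-b4) e f1 f2 f3 f4 := by
  simpa only [Q, gm] using h

lemma neg3 (h : Q t c a1 a2 a3 a4 d b1 b2 b3 b4 e f1 f2 f3 f4) :
    Q t c a1 a2 a3 a4 d b1 b2 b3 b4 (-e) (-f1) (-f2) (-f3) (-f4) := by
  simpa only [Q, gm] using h

lemma F12' (c a3 a4 x3 x4 : ℝ) (h : 0 ≤ a1 * a2) :
    g c a1 a2 a3 a4 1 (-1) x3 x4 + g c a1 a2 a3 a4 (-1) 1 x3 x4 ≤
    g c a1 a2 a3 a4 1 1 x3 x4 + g c a1 a2 a3 a4 (-1) (-1) x3 x4 := by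
  rcases mul_nonneg_iff.1 h with h | h
  · exact F12 _ _ _ _ _ h.1 h.2
  · have := F12 c a3 a4 x3 x4 (neg_nonneg.2 h.1) (neg_nonneg.2 h.2)
    simp only [gneg1, gneg2, neg_neg] at this
    linarith

lemma S1 : S 1 := Or.inl rfl
lemma S2 : S (-1) := Or.inr rfl

lemma same (h : Q t c a1 a2 a3 a4 d b1 b2 b3 b4 e f1 f2 f3 f4) (ht : 100 ≤ |t|)
    (ha : 0 ≤ a1 * a2) (hb : 0 ≤ b1 * b2) (hf : 0 ≤ f1 * f2) : False := by
  obtain ⟨k, l1, l2, l3, l4, h⟩ := h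
  have key : ∀ x, S x → -4 ≤ t * x := fun x hx => by
    have h1 := abs_le.1 (h _ _ _ _ S1 S1 S1 hx)
    have h2 := abs_le.1 (h _ _ _ _ S1 S2 S1 hx)
    have h3 := abs_le.1 (h _ _ _ _ S2 S1 S1 hx)
    have h4 := abs_le.1 (h _ _ _ _ S2 S2 S1 hx)
    have := F12' c a3 a4 1 x ha; have := F12' d b3 b4 1 x hb; have := F12' e f3 f4 1 x hf
    linarith [h1.1, h1.2, h2.1, h2.2, h3.1, h3.2, h4.1, h4.2]
  have := key _ S1; have := key _ S2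
  rcases abs_cases t with h | h <;> linarith [h.1]

lemma normal (h : Q t c a1 a2 a3 a4 d b1 b2 (-b3) (-b4) e f1 (-f2) f3 (-f4)) (ht : 100 ≤ |t|)
    (ha1 : 0 ≤ a1) (ha2 : 0 ≤ a2) (ha3 : 0 ≤ a3) (ha4 : 0 ≤ a4)
    (hb1 : 0 ≤ b1) (hb2 : 0 ≤ b2) (hb3 : 0 ≤ b3) (hb4 : 0 ≤ b4)
    (hf1 : 0 ≤ f1) (hf2 : 0 ≤ f2) (hf3 : 0 ≤ f3) (hf4 : 0 ≤ f4) : False := by
  obtain ⟨k, l1, l2, l3, l4, h⟩ := h
  simp only [gneg2, gneg3, gneg4] at h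
  obtain ⟨lpppp, upppp⟩ := abs_le.1 (h _ _ _ _ S1 S1 S1 S1)
  obtain ⟨lpppm, upppm⟩ := abs_le.1 (h _ _ _ _ S1 S1 S1 S2)
  obtain ⟨lppmp, uppmp⟩ := abs_le.1 (h _ _ _ _ S1 S1 S2 S1)
  obtain ⟨lppmm, uppmm⟩ := abs_le.1 (h _ _ _ _ S1 S1 S2 S2)
  obtain ⟨lpmpp, upmpp⟩ := abs_le.1 (h _ _ _ _ S1 S2 S1 S1)
  obtain ⟨lpmpm, upmpm⟩ := abs_le.1 (h _ _ _ _ S1 S2 S1 S2)
  obtain ⟨lpmmp, upmmp⟩ := abs_le.1 (h _ _ _ _ S1 S2 S2 S1)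
  obtain ⟨lpmmm, upmmm⟩ := abs_le.1 (h _ _ _ _ S1 S2 S2 S2)
  obtain ⟨lmppp, umppp⟩ := abs_le.1 (h _ _ _ _ S2 S1 S1 S1)
  obtain ⟨lmppm, umppm⟩ := abs_le.1 (h _ _ _ _ S2 S1 S1 S2)
  obtain ⟨lmpmp, umpmp⟩ := abs_le.1 (h _ _ _ _ S2 S1 S2 S1)
  obtain ⟨lmpmm, umpmm⟩ := abs_le.1 (h _ _ _ _ S2 S1 S2 S2)
  obtain ⟨lmmpp, ummpp⟩ := abs_le.1 (h _ _ _ _ S2 S2 S1 S1)
  obtain ⟨lmmpm, ummpm⟩ := abs_le.1 (h _ _ _ _ S2 S2 S1 S2)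
  obtain ⟨lmmmp, ummmp⟩ := abs_le.1 (h _ _ _ _ S2 S2 S2 S1)
  obtain ⟨lmmmm, ummmm⟩ := abs_le.1 (h _ _ _ _ S2 S2 S2 S2)
  clear h
  simp only [neg_neg] at lpppp upppp lpppm upppm lppmp uppmp lppmm uppmm lpmpp upmpp lpmpm upmpm lpmmp upmmp lpmmm upmmm lmppp umppp lmppm umppm lmpmp umpmp lmpmm umpmm lmmpp ummpp lmmpm ummpm lmmmp ummmp lmmmm ummmm
  rcases le_abs.1 ht with ht | ht
  · have : True := trivial
    obtain ⟨pa14pp, na14pp⟩ := P14 c a2 a3 1 1 ha1 ha4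
      (by linarith only [ht, F14 d b2 b3 1 (-1) hb1 hb4, F14 e f2 f3 (-1) 1 hf1 hf4,
        lpppp, upppp, lpppm, upppm, lmppp, umppp, lmppm, umppm])
    obtain ⟨pa14mm, na14mm⟩ := P14 c a2 a3 (-1) (-1) ha1 ha4
      (by linarith only [ht, F14 d b2 b3 (-1) 1 hb1 hb4, F14 e f2 f3 1 (-1) hf1 hf4,
        lpmmp, upmmp, lpmmm, upmmm, lmmmp, ummmp, lmmmm, ummmm])
    have eapppp := gp c a1 a2 a3 a4 1 1 1 1
      (by linarith only [pa14pp, na14pp, pa14mm, na14mm, ha2, ha3])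
    have eappmp := gp c a1 a2 a3 a4 1 1 (-1) 1
      (by linarith only [pa14pp, na14pp, pa14mm, na14mm, ha2, ha3])
    have eapmpp := gp c a1 a2 a3 a4 1 (-1) 1 1
      (by linarith only [pa14pp, na14pp, pa14mm, na14mm, ha2, ha3])
    have eapmmp := gp c a1 a2 a3 a4 1 (-1) (-1) 1
      (by linarith only [pa14pp, na14pp, pa14mm, na14mm, ha2, ha3])
    have eamppm := gn c a1 a2 a3 a4 (-1) 1 1 (-1)
      (by linarith only [pa14pp, na14pp, pa14mm, na14mm, ha2, ha3])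
    have eampmm := gn c a1 a2 a3 a4 (-1) 1 (-1) (-1)
      (by linarith only [pa14pp, na14pp, pa14mm, na14mm, ha2, ha3])
    have eammpm := gn c a1 a2 a3 a4 (-1) (-1) 1 (-1)
      (by linarith only [pa14pp, na14pp, pa14mm, na14mm, ha2, ha3])
    have eammmm := gn c a1 a2 a3 a4 (-1) (-1) (-1) (-1)
      (by linarith only [pa14pp, na14pp, pa14mm, na14mm, ha2, ha3])
    obtain ⟨pb13pp, nb13pp⟩ := P13 d b2 b4 1 1 hb1 hb3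
      (by linarith only [ht, F13 c a2 a4 1 (-1) ha1 ha3, F13 e f2 f4 (-1) 1 hf1 hf3,
        lpppm, upppm, lppmm, uppmm, lmppm, umppm, lmpmm, umpmm])
    obtain ⟨pb13mm, nb13mm⟩ := P13 d b2 b4 (-1) (-1) hb1 hb3
      (by linarith only [ht, F13 c a2 a4 (-1) 1 ha1 ha3, F13 e f2 f4 1 (-1) hf1 hf3,
        lpmpp, upmpp, lpmmp, upmmp, lmmpp, ummpp, lmmmp, ummmp])
    have ebpppp := gp d b1 b2 b3 b4 1 1 1 1
      (by linarith only [pb13pp, nb13pp, pb13mm, nb13mm, hb2, hb4])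
    have ebpppm := gp d b1 b2 b3 b4 1 1 1 (-1)
      (by linarith only [pb13pp, nb13pp, pb13mm, nb13mm, hb2, hb4])
    have ebpmpp := gp d b1 b2 b3 b4 1 (-1) 1 1
      (by linarith only [pb13pp, nb13pp, pb13mm, nb13mm, hb2, hb4])
    have ebpmpm := gp d b1 b2 b3 b4 1 (-1) 1 (-1)
      (by linarith only [pb13pp, nb13pp, pb13mm, nb13mm, hb2, hb4])
    have ebmpmp := gn d b1 b2 b3 b4 (-1) 1 (-1) 1
      (by linarith only [pb13pp, nb13pp, pb13mm, nb13mm, hb2, hb4])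
    have ebmpmm := gn d b1 b2 b3 b4 (-1) 1 (-1) (-1)
      (by linarith only [pb13pp, nb13pp, pb13mm, nb13mm, hb2, hb4])
    have ebmmmp := gn d b1 b2 b3 b4 (-1) (-1) (-1) 1
      (by linarith only [pb13pp, nb13pp, pb13mm, nb13mm, hb2, hb4])
    have ebmmmm := gn d b1 b2 b3 b4 (-1) (-1) (-1) (-1)
      (by linarith only [pb13pp, nb13pp, pb13mm, nb13mm, hb2, hb4])
    obtain ⟨pf12pp, nf12pp⟩ := P12 e f3 f4 1 1 hf1 hf2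
      (by linarith only [ht, F12 c a3 a4 1 (-1) ha1 ha2, F12 d b3 b4 (-1) 1 hb1 hb2,
        lpppm, upppm, lpmpm, upmpm, lmppm, umppm, lmmpm, ummpm])
    obtain ⟨pf12mm, nf12mm⟩ := P12 e f3 f4 (-1) (-1) hf1 hf2
      (by linarith only [ht, F12 c a3 a4 (-1) 1 ha1 ha2, F12 d b3 b4 1 (-1) hb1 hb2,
        lppmp, uppmp, lpmmp, upmmp, lmpmp, umpmp, lmmmp, ummmp])
    have efpppp := gp e f1 f2 f3 f4 1 1 1 1
      (by linarith only [pf12pp, nf12pp, pf12mm, nf12mm, hf3, hf4])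
    have efpppm := gp e f1 f2 f3 f4 1 1 1 (-1)
      (by linarith only [pf12pp, nf12pp, pf12mm, nf12mm, hf3, hf4])
    have efppmp := gp e f1 f2 f3 f4 1 1 (-1) 1
      (by linarith only [pf12pp, nf12pp, pf12mm, nf12mm, hf3, hf4])
    have efppmm := gp e f1 f2 f3 f4 1 1 (-1) (-1)
      (by linarith only [pf12pp, nf12pp, pf12mm, nf12mm, hf3, hf4])
    have efmmpp := gn e f1 f2 f3 f4 (-1) (-1) 1 1
      (by linarith only [pf12pp, nf12pp, pf12mm, nf12mm, hf3, hf4])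
    have efmmpm := gn e f1 f2 f3 f4 (-1) (-1) 1 (-1)
      (by linarith only [pf12pp, nf12pp, pf12mm, nf12mm, hf3, hf4])
    have efmmmp := gn e f1 f2 f3 f4 (-1) (-1) (-1) 1
      (by linarith only [pf12pp, nf12pp, pf12mm, nf12mm, hf3, hf4])
    have efmmmm := gn e f1 f2 f3 f4 (-1) (-1) (-1) (-1)
      (by linarith only [pf12pp, nf12pp, pf12mm, nf12mm, hf3, hf4])
    linarith only [ht, eapppp, eappmp, eapmpp, eapmmp, eamppm, eampmm, eammpm, eammmm, F23 c a1 a4 1 (-1) ha2 ha3, F23 c a1 a4 (-1) 1 ha2 ha3, ebpppp, ebpppm, ebpmpp, ebpmpm, ebmpmp, ebmpmm, ebmmmp, ebmmmm, F24 d b1 b3 1 (-1) hb2 hb4, F24 d b1 b3 (-1) 1 hb2 hb4, efpppp, efpppm, efppmp, efppmm, efmmpp, efmmpm, efmmmp, efmmmm, F34 e f1 f2 1 (-1) hf3 hf4, F34 e f1 f2 (-1) 1 hf3 hf4,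
      lpppp, upppp, lpppm, upppm, lppmp, uppmp, lppmm, uppmm, lpmpp, upmpp, lpmpm, upmpm, lpmmp, upmmp, lpmmm, upmmm, lmppp, umppp, lmppm, umppm, lmpmp, umpmp, lmpmm, umpmm, lmmpp, ummpp, lmmpm, ummpm, lmmmp, ummmp, lmmmm, ummmm]
  · have : True := trivial
    obtain ⟨pa14pm, na14pm⟩ := P14 c a2 a3 1 (-1) ha1 ha4
      (by linarith only [ht, F14 d b2 b3 1 1 hb1 hb4, F14 e f2 f3 (-1) (-1) hf1 hf4,
        lppmp, uppmp, lppmm, uppmm, lmpmp, umpmp, lmpmm, umpmm])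
    obtain ⟨pa14mp, na14mp⟩ := P14 c a2 a3 (-1) 1 ha1 ha4
      (by linarith only [ht, F14 d b2 b3 (-1) (-1) hb1 hb4, F14 e f2 f3 1 1 hf1 hf4,
        lpmpp, upmpp, lpmpm, upmpm, lmmpp, ummpp, lmmpm, ummpm])
    obtain ⟨pa23pm, na23pm⟩ := P23 c a1 a4 1 (-1) ha2 ha3
      (by linarith only [ht, F23 d b1 b4 1 1 hb2 hb3, F23 e f1 f4 1 1 hf2 hf3,
        lpppm, upppm, lppmm, uppmm, lpmpm, upmpm, lpmmm, upmmm])
    obtain ⟨pa23mp, na23mp⟩ := P23 c a1 a4 (-1) 1 ha2 ha3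
      (by linarith only [ht, F23 d b1 b4 (-1) (-1) hb2 hb3, F23 e f1 f4 (-1) (-1) hf2 hf3,
        lmppp, umppp, lmpmp, umpmp, lmmpp, ummpp, lmmmp, ummmp])
    have eapppp := gp c a1 a2 a3 a4 1 1 1 1
      (by linarith only [pa14pm, na14pm, pa14mp, na14mp, pa23pm, na23pm, pa23mp, na23mp, ha1])
    have eapppm := gp c a1 a2 a3 a4 1 1 1 (-1)
      (by linarith only [pa14pm, na14pm, pa14mp, na14mp, pa23pm, na23pm, pa23mp, na23mp, ha1])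
    have eappmp := gp c a1 a2 a3 a4 1 1 (-1) 1
      (by linarith only [pa14pm, na14pm, pa14mp, na14mp, pa23pm, na23pm, pa23mp, na23mp, ha1])
    have eapmpp := gp c a1 a2 a3 a4 1 (-1) 1 1
      (by linarith only [pa14pm, na14pm, pa14mp, na14mp, pa23pm, na23pm, pa23mp, na23mp, ha1])
    have eapmmm := gn c a1 a2 a3 a4 1 (-1) (-1) (-1)
      (by linarith only [pa14pm, na14pm, pa14mp, na14mp, pa23pm, na23pm, pa23mp, na23mp, ha1])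
    have eamppp := gp c a1 a2 a3 a4 (-1) 1 1 1
      (by linarith only [pa14pm, na14pm, pa14mp, na14mp, pa23pm, na23pm, pa23mp, na23mp, ha1])
    have eampmm := gn c a1 a2 a3 a4 (-1) 1 (-1) (-1)
      (by linarith only [pa14pm, na14pm, pa14mp, na14mp, pa23pm, na23pm, pa23mp, na23mp, ha1])
    have eammpm := gn c a1 a2 a3 a4 (-1) (-1) 1 (-1)
      (by linarith only [pa14pm, na14pm, pa14mp, na14mp, pa23pm, na23pm, pa23mp, na23mp, ha1])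
    have eammmp := gn c a1 a2 a3 a4 (-1) (-1) (-1) 1
      (by linarith only [pa14pm, na14pm, pa14mp, na14mp, pa23pm, na23pm, pa23mp, na23mp, ha1])
    have eammmm := gn c a1 a2 a3 a4 (-1) (-1) (-1) (-1)
      (by linarith only [pa14pm, na14pm, pa14mp, na14mp, pa23pm, na23pm, pa23mp, na23mp, ha1])
    obtain ⟨⟨aE10, aE11, aE12, aE13, aE14⟩, aD1⟩ := E1 c a1 a2 a3 a4
    obtain ⟨⟨aE20, aE21, aE22, aE23, aE24⟩, aD2⟩ := E2 c a1 a2 a3 a4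
    obtain ⟨⟨aE30, aE31, aE32, aE33, aE34⟩, aD3⟩ := E3 c a1 a2 a3 a4
    have ac := le_abs_self c; have ac' := neg_abs_le c
    obtain ⟨pb13pm, nb13pm⟩ := P13 d b2 b4 1 (-1) hb1 hb3
      (by linarith only [ht, F13 c a2 a4 1 1 ha1 ha3, F13 e f2 f4 (-1) (-1) hf1 hf3,
        lpppp, upppp, lppmp, uppmp, lmppp, umppp, lmpmp, umpmp])
    obtain ⟨pb13mp, nb13mp⟩ := P13 d b2 b4 (-1) 1 hb1 hb3
      (by linarith only [ht, F13 c a2 a4 (-1) (-1) ha1 ha3, F13 e f2 f4 1 1 hf1 hf3,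
        lpmpm, upmpm, lpmmm, upmmm, lmmpm, ummpm, lmmmm, ummmm])
    obtain ⟨pb24pm, nb24pm⟩ := P24 d b1 b3 1 (-1) hb2 hb4
      (by linarith only [ht, F24 c a1 a3 1 1 ha2 ha4, F24 e f1 f3 1 1 hf2 hf4,
        lpppp, upppp, lpppm, upppm, lpmpp, upmpp, lpmpm, upmpm])
    obtain ⟨pb24mp, nb24mp⟩ := P24 d b1 b3 (-1) 1 hb2 hb4
      (by linarith only [ht, F24 c a1 a3 (-1) (-1) ha2 ha4, F24 e f1 f3 (-1) (-1) hf2 hf4,
        lmpmp, umpmp, lmpmm, umpmm, lmmmp, ummmp, lmmmm, ummmm])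
    have ebpppp := gp d b1 b2 b3 b4 1 1 1 1
      (by linarith only [pb13pm, nb13pm, pb13mp, nb13mp, pb24pm, nb24pm, pb24mp, nb24mp, hb1])
    have ebpppm := gp d b1 b2 b3 b4 1 1 1 (-1)
      (by linarith only [pb13pm, nb13pm, pb13mp, nb13mp, pb24pm, nb24pm, pb24mp, nb24mp, hb1])
    have ebppmp := gp d b1 b2 b3 b4 1 1 (-1) 1
      (by linarith only [pb13pm, nb13pm, pb13mp, nb13mp, pb24pm, nb24pm, pb24mp, nb24mp, hb1])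
    have ebpmpp := gp d b1 b2 b3 b4 1 (-1) 1 1
      (by linarith only [pb13pm, nb13pm, pb13mp, nb13mp, pb24pm, nb24pm, pb24mp, nb24mp, hb1])
    have ebpmmm := gn d b1 b2 b3 b4 1 (-1) (-1) (-1)
      (by linarith only [pb13pm, nb13pm, pb13mp, nb13mp, pb24pm, nb24pm, pb24mp, nb24mp, hb1])
    have ebmppp := gp d b1 b2 b3 b4 (-1) 1 1 1
      (by linarith only [pb13pm, nb13pm, pb13mp, nb13mp, pb24pm, nb24pm, pb24mp, nb24mp, hb1])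
    have ebmpmm := gn d b1 b2 b3 b4 (-1) 1 (-1) (-1)
      (by linarith only [pb13pm, nb13pm, pb13mp, nb13mp, pb24pm, nb24pm, pb24mp, nb24mp, hb1])
    have ebmmpm := gn d b1 b2 b3 b4 (-1) (-1) 1 (-1)
      (by linarith only [pb13pm, nb13pm, pb13mp, nb13mp, pb24pm, nb24pm, pb24mp, nb24mp, hb1])
    have ebmmmp := gn d b1 b2 b3 b4 (-1) (-1) (-1) 1
      (by linarith only [pb13pm, nb13pm, pb13mp, nb13mp, pb24pm, nb24pm, pb24mp, nb24mp, hb1])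
    have ebmmmm := gn d b1 b2 b3 b4 (-1) (-1) (-1) (-1)
      (by linarith only [pb13pm, nb13pm, pb13mp, nb13mp, pb24pm, nb24pm, pb24mp, nb24mp, hb1])
    obtain ⟨⟨bE10, bE11, bE12, bE13, bE14⟩, bD1⟩ := E1 d b1 b2 b3 b4
    obtain ⟨⟨bE20, bE21, bE22, bE23, bE24⟩, bD2⟩ := E2 d b1 b2 b3 b4
    obtain ⟨⟨bE30, bE31, bE32, bE33, bE34⟩, bD3⟩ := E3 d b1 b2 b3 b4
    have bc := le_abs_self d; have bc' := neg_abs_le d
    obtain ⟨pf12pm, nf12pm⟩ := P12 e f3 f4 1 (-1) hf1 hf2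
      (by linarith only [ht, F12 c a3 a4 1 1 ha1 ha2, F12 d b3 b4 (-1) (-1) hb1 hb2,
        lpppp, upppp, lpmpp, upmpp, lmppp, umppp, lmmpp, ummpp])
    obtain ⟨pf12mp, nf12mp⟩ := P12 e f3 f4 (-1) 1 hf1 hf2
      (by linarith only [ht, F12 c a3 a4 (-1) (-1) ha1 ha2, F12 d b3 b4 1 1 hb1 hb2,
        lppmm, uppmm, lpmmm, upmmm, lmpmm, umpmm, lmmmm, ummmm])
    obtain ⟨pf34pm, nf34pm⟩ := P34 e f1 f2 1 (-1) hf3 hf4
      (by linarith only [ht, F34 c a1 a2 1 1 ha3 ha4, F34 d b1 b2 1 1 hb3 hb4,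
        lpppp, upppp, lpppm, upppm, lppmp, uppmp, lppmm, uppmm])
    obtain ⟨pf34mp, nf34mp⟩ := P34 e f1 f2 (-1) 1 hf3 hf4
      (by linarith only [ht, F34 c a1 a2 (-1) (-1) ha3 ha4, F34 d b1 b2 (-1) (-1) hb3 hb4,
        lmmpp, ummpp, lmmpm, ummpm, lmmmp, ummmp, lmmmm, ummmm])
    have efpppp := gp e f1 f2 f3 f4 1 1 1 1
      (by linarith only [pf12pm, nf12pm, pf12mp, nf12mp, pf34pm, nf34pm, pf34mp, nf34mp, hf1])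
    have efpppm := gp e f1 f2 f3 f4 1 1 1 (-1)
      (by linarith only [pf12pm, nf12pm, pf12mp, nf12mp, pf34pm, nf34pm, pf34mp, nf34mp, hf1])
    have efppmp := gp e f1 f2 f3 f4 1 1 (-1) 1
      (by linarith only [pf12pm, nf12pm, pf12mp, nf12mp, pf34pm, nf34pm, pf34mp, nf34mp, hf1])
    have efpmpp := gp e f1 f2 f3 f4 1 (-1) 1 1
      (by linarith only [pf12pm, nf12pm, pf12mp, nf12mp, pf34pm, nf34pm, pf34mp, nf34mp, hf1])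
    have efpmmm := gn e f1 f2 f3 f4 1 (-1) (-1) (-1)
      (by linarith only [pf12pm, nf12pm, pf12mp, nf12mp, pf34pm, nf34pm, pf34mp, nf34mp, hf1])
    have efmppp := gp e f1 f2 f3 f4 (-1) 1 1 1
      (by linarith only [pf12pm, nf12pm, pf12mp, nf12mp, pf34pm, nf34pm, pf34mp, nf34mp, hf1])
    have efmpmm := gn e f1 f2 f3 f4 (-1) 1 (-1) (-1)
      (by linarith only [pf12pm, nf12pm, pf12mp, nf12mp, pf34pm, nf34pm, pf34mp, nf34mp, hf1])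
    have efmmpm := gn e f1 f2 f3 f4 (-1) (-1) 1 (-1)
      (by linarith only [pf12pm, nf12pm, pf12mp, nf12mp, pf34pm, nf34pm, pf34mp, nf34mp, hf1])
    have efmmmp := gn e f1 f2 f3 f4 (-1) (-1) (-1) 1
      (by linarith only [pf12pm, nf12pm, pf12mp, nf12mp, pf34pm, nf34pm, pf34mp, nf34mp, hf1])
    have efmmmm := gn e f1 f2 f3 f4 (-1) (-1) (-1) (-1)
      (by linarith only [pf12pm, nf12pm, pf12mp, nf12mp, pf34pm, nf34pm, pf34mp, nf34mp, hf1])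
    obtain ⟨⟨fE10, fE11, fE12, fE13, fE14⟩, fD1⟩ := E1 e f1 f2 f3 f4
    obtain ⟨⟨fE20, fE21, fE22, fE23, fE24⟩, fD2⟩ := E2 e f1 f2 f3 f4
    obtain ⟨⟨fE30, fE31, fE32, fE33, fE34⟩, fD3⟩ := E3 e f1 f2 f3 f4
    have fc := le_abs_self e; have fc' := neg_abs_le e
    have K1 : (g c a1 a2 a3 a4 1 (-1) (-1) 1 + g c a1 a2 a3 a4 (-1) 1 1 (-1)) ≤
        (g d b1 b2 b3 b4 1 (-1) (-1) 1 + g d b1 b2 b3 b4 (-1) 1 1 (-1)) +
        (g e f1 f2 f3 f4 1 (-1) (-1) 1 + g e f1 f2 f3 f4 (-1) 1 1 (-1)) + 40 := by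
      rcases aD3 with D | D | D
      · rcases abs_cases c with D' | D' <;> linarith only [D, D'.1, eapppp, eapppm, eappmp, eapmpp, eapmmm, eamppp, eampmm, eammpm, eammmp, eammmm, aE10, aE11, aE12, aE13, aE14, aE20, aE21, aE22, aE23, aE24, aE30, aE31, aE32, aE33, aE34, ebpppp, ebpppm, ebppmp, ebpmpp, ebpmmm, ebmppp, ebmpmm, ebmmpm, ebmmmp, ebmmmm, bE10, bE11, bE12, bE13, bE14, bE20, bE21, bE22, bE23, bE24, bE30, bE31, bE32, bE33, bE34, efpppp, efpppm, efppmp, efpmpp, efpmmm, efmppp, efmpmm, efmmpm, efmmmp, efmmmm, fE10, fE11, fE12, fE13, fE14, fE20, fE21, fE22, fE23, fE24, fE30, fE31, fE32, fE33, fE34,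
          lpppp, upppp, lpppm, upppm, lppmp, uppmp, lppmm, uppmm, lpmpp, upmpp, lpmpm, upmpm, lpmmp, upmmp, lpmmm, upmmm, lmppp, umppp, lmppm, umppm, lmpmp, umpmp, lmpmm, umpmm, lmmpp, ummpp, lmmpm, ummpm, lmmmp, ummmp, lmmmm, ummmm]
      all_goals linarith only [D, eapppp, eapppm, eappmp, eapmpp, eapmmm, eamppp, eampmm, eammpm, eammmp, eammmm, aE10, aE11, aE12, aE13, aE14, aE20, aE21, aE22, aE23, aE24, aE30, aE31, aE32, aE33, aE34, ebpppp, ebpppm, ebppmp, ebpmpp, ebpmmm, ebmppp, ebmpmm, ebmmpm, ebmmmp, ebmmmm, bE10, bE11, bE12, bE13, bE14, bE20, bE21, bE22, bE23, bE24, bE30, bE31, bE32, bE33, bE34, efpppp, efpppm, efppmp, efpmpp, efpmmm, efmppp, efmpmm, efmmpm, efmmmp, efmmmm, fE10, fE11, fE12, fE13, fE14, fE20, fE21, fE22, fE23, fE24, fE30, fE31, fE32, fE33, fE34,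
          lpppp, upppp, lpppm, upppm, lppmp, uppmp, lppmm, uppmm, lpmpp, upmpp, lpmpm, upmpm, lpmmp, upmmp, lpmmm, upmmm, lmppp, umppp, lmppm, umppm, lmpmp, umpmp, lmpmm, umpmm, lmmpp, ummpp, lmmpm, ummpm, lmmmp, ummmp, lmmmm, ummmm]
    have K2 : (g d b1 b2 b3 b4 1 (-1) 1 (-1) + g d b1 b2 b3 b4 (-1) 1 (-1) 1) ≤
        (g c a1 a2 a3 a4 1 (-1) 1 (-1) + g c a1 a2 a3 a4 (-1) 1 (-1) 1) +
        (g e f1 f2 f3 f4 1 (-1) 1 (-1) + g e f1 f2 f3 f4 (-1) 1 (-1) 1) + 40 := by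
      rcases bD2 with D | D | D
      · rcases abs_cases d with D' | D' <;> linarith only [D, D'.1, eapppp, eapppm, eappmp, eapmpp, eapmmm, eamppp, eampmm, eammpm, eammmp, eammmm, aE10, aE11, aE12, aE13, aE14, aE20, aE21, aE22, aE23, aE24, aE30, aE31, aE32, aE33, aE34, ebpppp, ebpppm, ebppmp, ebpmpp, ebpmmm, ebmppp, ebmpmm, ebmmpm, ebmmmp, ebmmmm, bE10, bE11, bE12, bE13, bE14, bE20, bE21, bE22, bE23, bE24, bE30, bE31, bE32, bE33, bE34, efpppp, efpppm, efppmp, efpmpp, efpmmm, efmppp, efmpmm, efmmpm, efmmmp, efmmmm, fE10, fE11, fE12, fE13, fE14, fE20, fE21, fE22, fE23, fE24, fE30, fE31, fE32, fE33, fE34,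
          lpppp, upppp, lpppm, upppm, lppmp, uppmp, lppmm, uppmm, lpmpp, upmpp, lpmpm, upmpm, lpmmp, upmmp, lpmmm, upmmm, lmppp, umppp, lmppm, umppm, lmpmp, umpmp, lmpmm, umpmm, lmmpp, ummpp, lmmpm, ummpm, lmmmp, ummmp, lmmmm, ummmm]
      all_goals linarith only [D, eapppp, eapppm, eappmp, eapmpp, eapmmm, eamppp, eampmm, eammpm, eammmp, eammmm, aE10, aE11, aE12, aE13, aE14, aE20, aE21, aE22, aE23, aE24, aE30, aE31, aE32, aE33, aE34, ebpppp, ebpppm, ebppmp, ebpmpp, ebpmmm, ebmppp, ebmpmm, ebmmpm, ebmmmp, ebmmmm, bE10, bE11, bE12, bE13, bE14, bE20, bE21, bE22, bE23, bE24, bE30, bE31, bE32, bE33, bE34, efpppp, efpppm, efppmp, efpmpp, efpmmm, efmppp, efmpmm, efmmpm, efmmmp, efmmmm, fE10, fE11, fE12, fE13, fE14, fE20, fE21, fE22, fE23, fE24, fE30, fE31, fE32, fE33, fE34,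
          lpppp, upppp, lpppm, upppm, lppmp, uppmp, lppmm, uppmm, lpmpp, upmpp, lpmpm, upmpm, lpmmp, upmmp, lpmmm, upmmm, lmppp, umppp, lmppm, umppm, lmpmp, umpmp, lmpmm, umpmm, lmmpp, ummpp, lmmpm, ummpm, lmmmp, ummmp, lmmmm, ummmm]
    have K3 : (g e f1 f2 f3 f4 1 1 (-1) (-1) + g e f1 f2 f3 f4 (-1) (-1) 1 1) ≤
        (g c a1 a2 a3 a4 1 1 (-1) (-1) + g c a1 a2 a3 a4 (-1) (-1) 1 1) +
        (g d b1 b2 b3 b4 1 1 (-1) (-1) + g d b1 b2 b3 b4 (-1) (-1) 1 1) + 40 := by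
      rcases fD1 with D | D | D
      · rcases abs_cases e with D' | D' <;> linarith only [D, D'.1, eapppp, eapppm, eappmp, eapmpp, eapmmm, eamppp, eampmm, eammpm, eammmp, eammmm, aE10, aE11, aE12, aE13, aE14, aE20, aE21, aE22, aE23, aE24, aE30, aE31, aE32, aE33, aE34, ebpppp, ebpppm, ebppmp, ebpmpp, ebpmmm, ebmppp, ebmpmm, ebmmpm, ebmmmp, ebmmmm, bE10, bE11, bE12, bE13, bE14, bE20, bE21, bE22, bE23, bE24, bE30, bE31, bE32, bE33, bE34, efpppp, efpppm, efppmp, efpmpp, efpmmm, efmppp, efmpmm, efmmpm, efmmmp, efmmmm, fE10, fE11, fE12, fE13, fE14, fE20, fE21, fE22, fE23, fE24, fE30, fE31, fE32, fE33, fE34,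
          lpppp, upppp, lpppm, upppm, lppmp, uppmp, lppmm, uppmm, lpmpp, upmpp, lpmpm, upmpm, lpmmp, upmmp, lpmmm, upmmm, lmppp, umppp, lmppm, umppm, lmpmp, umpmp, lmpmm, umpmm, lmmpp, ummpp, lmmpm, ummpm, lmmmp, ummmp, lmmmm, ummmm]
      all_goals linarith only [D, eapppp, eapppm, eappmp, eapmpp, eapmmm, eamppp, eampmm, eammpm, eammmp, eammmm, aE10, aE11, aE12, aE13, aE14, aE20, aE21, aE22, aE23, aE24, aE30, aE31, aE32, aE33, aE34, ebpppp, ebpppm, ebppmp, ebpmpp, ebpmmm, ebmppp, ebmpmm, ebmmpm, ebmmmp, ebmmmm, bE10, bE11, bE12, bE13, bE14, bE20, bE21, bE22, bE23, bE24, bE30, bE31, bE32, bE33, bE34, efpppp, efpppm, efppmp, efpmpp, efpmmm, efmppp, efmpmm, efmmpm, efmmmp, efmmmm, fE10, fE11, fE12, fE13, fE14, fE20, fE21, fE22, fE23, fE24, fE30, fE31, fE32, fE33, fE34,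
          lpppp, upppp, lpppm, upppm, lppmp, uppmp, lppmm, uppmm, lpmpp, upmpp, lpmpm, upmpm, lpmmp, upmmp, lpmmm, upmmm, lmppp, umppp, lmppm, umppm, lmpmp, umpmp, lmpmm, umpmm, lmmpp, ummpp, lmmpm, ummpm, lmmmp, ummmp, lmmmm, ummmm]
    linarith only [ht, K1, K2, K3, eapppp, eapppm, eappmp, eapmpp, eapmmm, eamppp, eampmm, eammpm, eammmp, eammmm, aE10, aE11, aE12, aE13, aE14, aE20, aE21, aE22, aE23, aE24, aE30, aE31, aE32, aE33, aE34, ebpppp, ebpppm, ebppmp, ebpmpp, ebpmmm, ebmppp, ebmpmm, ebmmpm, ebmmmp, ebmmmm, bE10, bE11, bE12, bE13, bE14, bE20, bE21, bE22, bE23, bE24, bE30, bE31, bE32, bE33, bE34, efpppp, efpppm, efppmp, efpmpp, efpmmm, efmppp, efmpmm, efmmpm, efmmmp, efmmmm, fE10, fE11, fE12, fE13, fE14, fE20, fE21, fE22, fE23, fE24, fE30, fE31, fE32, fE33, fE34,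
      lpppp, upppp, lpppm, upppm, lppmp, uppmp, lppmm, uppmm, lpmpp, upmpp, lpmpm, upmpm, lpmmp, upmmp, lpmmm, upmmm, lmppp, umppp, lmppm, umppm, lmpmp, umpmp, lmpmm, umpmm, lmmpp, ummpp, lmmpm, ummpm, lmmmp, ummmp, lmmmm, ummmm]

lemma step3 (h : Q t c a1 a2 a3 a4 d b1 b2 b3 b4 e f1 f2 f3 f4) (ht : 100 ≤ |t|)
    (ha1 : 0 ≤ a1) (ha2 : 0 ≤ a2) (ha3 : 0 ≤ a3) (ha4 : 0 ≤ a4) (hb1 : 0 ≤ b1) (hf1 : 0 ≤ f1) :
    False := by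
  have N : ∀ {a2 a3 a4 b2 b3 b4 f2 f3 f4 : ℝ}, Q t c a1 a2 a3 a4 d b1 b2 b3 b4 e f1 f2 f3 f4 →
      0 ≤ a2 → 0 ≤ a3 → 0 ≤ a4 → 0 ≤ b2 → b3 ≤ 0 → b4 ≤ 0 → f2 ≤ 0 → 0 ≤ f3 → f4 ≤ 0 → False :=
    fun {a2 a3 a4 b2 b3 b4 f2 f3 f4} h ha2 ha3 ha4 hb2 hb3 hb4 hf2 hf3 hf4 =>
      normal (b3 := -b3) (b4 := -b4) (f2 := -f2) (f4 := -f4) (by simpa only [neg_neg] using h) ht
        ha1 ha2 ha3 ha4 hb1 hb2 (neg_nonneg.2 hb3) (neg_nonneg.2 hb4) hf1 (neg_nonneg.2 hf2) hf3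
        (neg_nonneg.2 hf4)
  have M : ∀ {x y : ℝ}, (0 ≤ x ∧ 0 ≤ y ∨ x ≤ 0 ∧ y ≤ 0) → 0 ≤ x * y := mul_nonneg_iff.2
  have s12 := fun x y => same h ht (mul_nonneg ha1 ha2) (M x) (M y)
  have s13 := fun x y => same (swap2 h) ht (mul_nonneg ha1 ha3) (M x) (M y)
  have s14 := fun x y => same (swap2 (swap3 h)) ht (mul_nonneg ha1 ha4) (M x) (M y)
  have s23 := fun x y => same (swap1 (swap2 (swap1 h))) ht (mul_nonneg ha3 ha2) (M x) (M y)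
  have s24 := fun x y => same (swap2 (swap3 (swap1 h))) ht (mul_nonneg ha2 ha4) (M x) (M y)
  have s34 := fun x y => same (swap2 (swap3 (swap1 (swap2 h)))) ht (mul_nonneg ha3 ha4) (M x) (M y)
  have n1 := N h ha2 ha3 ha4
  have n2 := N (swap2 h) ha3 ha2 ha4
  have n3 := N (swap3 h) ha2 ha4 ha3
  have n4 := N (swap2 (swap3 h)) ha4 ha2 ha3
  have n5 := N (swap3 (swap2 h)) ha3 ha4 ha2
  have n6 := N (swap2 (swap3 (swap2 h))) ha4 ha3 ha2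
  clear N M h
  rcases le_total 0 b2 with h1 | h1 <;> rcases le_total 0 b3 with h2 | h2 <;>
    rcases le_total 0 b4 with h3 | h3 <;> rcases le_total 0 f2 with h4 | h4 <;>
    rcases le_total 0 f3 with h5 | h5 <;> rcases le_total 0 f4 with h6 | h6 <;>
    first
    | (refine s12 ?_ ?_ <;> first | exact .inl ⟨‹_›, ‹_›⟩ | exact .inr ⟨‹_›, ‹_›⟩)
    | (refine s13 ?_ ?_ <;> first | exact .inl ⟨‹_›, ‹_›⟩ | exact .inr ⟨‹_›, ‹_›⟩)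
    | (refine s14 ?_ ?_ <;> first | exact .inl ⟨‹_›, ‹_›⟩ | exact .inr ⟨‹_›, ‹_›⟩)
    | (refine s23 ?_ ?_ <;> first | exact .inl ⟨‹_›, ‹_›⟩ | exact .inr ⟨‹_›, ‹_›⟩)
    | (refine s24 ?_ ?_ <;> first | exact .inl ⟨‹_›, ‹_›⟩ | exact .inr ⟨‹_›, ‹_›⟩)
    | (refine s34 ?_ ?_ <;> first | exact .inl ⟨‹_›, ‹_›⟩ | exact .inr ⟨‹_›, ‹_›⟩)
    | exact n1 ‹_› ‹_› ‹_› ‹_› ‹_› ‹_› | exact n2 ‹_› ‹_› ‹_› ‹_› ‹_› ‹_›
    | exact n3 ‹_› ‹_› ‹_› ‹_› ‹_› ‹_› | exact n4 ‹_› ‹_› ‹_› ‹_› ‹_› ‹_›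
    | exact n5 ‹_› ‹_› ‹_› ‹_› ‹_› ‹_› | exact n6 ‹_› ‹_› ‹_› ‹_› ‹_› ‹_›

lemma step2 (h : Q t c a1 a2 a3 a4 d b1 b2 b3 b4 e f1 f2 f3 f4) (ht : 100 ≤ |t|)
    (ha1 : 0 ≤ a1) (ha2 : 0 ≤ a2) (ha3 : 0 ≤ a3) (ha4 : 0 ≤ a4) : False := by
  rcases le_total 0 b1 with h1 | h1 <;> rcases le_total 0 f1 with h2 | h2
  · exact step3 h ht ha1 ha2 ha3 ha4 h1 h2
  · exact step3 (neg3 h) ht ha1 ha2 ha3 ha4 h1 (neg_nonneg.2 h2)
  · exact step3 (neg2 h) ht ha1 ha2 ha3 ha4 (neg_nonneg.2 h1) h2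
  · exact step3 (neg2 (neg3 h)) ht ha1 ha2 ha3 ha4 (neg_nonneg.2 h1) (neg_nonneg.2 h2)

lemma noQ (h : Q t c a1 a2 a3 a4 d b1 b2 b3 b4 e f1 f2 f3 f4) (ht : 100 ≤ |t|) : False := by
  wlog h1 : 0 ≤ a1 generalizing t a1 b1 f1
  · exact this (flip1 h) (by rwa [abs_neg]) (by linarith)
  wlog h2 : 0 ≤ a2 generalizing t a2 b2 f2
  · exact this (flip2 h) (by rwa [abs_neg]) (by linarith)
  wlog h3 : 0 ≤ a3 generalizing t a3 b3 f3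
  · exact this (flip3 h) (by rwa [abs_neg]) (by linarith)
  wlog h4 : 0 ≤ a4 generalizing t a4 b4 f4
  · exact this (flip4 h) (by rwa [abs_neg]) (by linarith)
  exact step2 h ht h1 h2 h3 h4

end

lemma soft (z : ℝ) : 0 ≤ log (1 + exp z) - (z / 2 + |z / 2|) ∧
    log (1 + exp z) - (z / 2 + |z / 2|) ≤ 1 := by
  have h0 := exp_pos z
  have h2 : (2 : ℝ) ≤ exp 1 := by linarith [add_one_le_exp (1 : ℝ)]
  rw [sub_nonneg, sub_le_iff_le_add, le_log_iff_exp_le (by linarith),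
    log_le_iff_le_exp (by linarith)]
  rcases le_total 0 z with h | h
  · rw [abs_of_nonneg (by linarith), add_halves, exp_add]
    have := one_le_exp h
    constructor <;> nlinarith
  · rw [abs_of_nonpos (by linarith), add_neg_cancel, add_zero, exp_zero]
    have := exp_le_one_iff.2 h
    constructor <;> linarith

lemma weight_eq {n m : ℕ} (W : Fin n → Fin m → ℝ) (b : Fin n → ℝ) (c : Fin m → ℝ)
    (v : Fin n → Bool) : weight W b c v =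
      exp (∑ i, b i * bit (v i)) * ∏ j, (1 + exp (c j + ∑ i, bit (v i) * W i j)) := by
  have : ∀ j, 1 + exp (c j + ∑ i, bit (v i) * W i j) =
      ∑ y : Bool, exp ((c j + ∑ i, bit (v i) * W i j) * bit y) := fun j => by
    simp [bit, add_comm]
  simp only [this]
  rw [prod_univ_sum, Fintype.piFinset_univ, mul_sum]
  refine sum_congr rfl fun h _ => ?_
  rw [← exp_sum, ← exp_add, add_assoc, sum_comm]
  simp only [add_mul, sum_mul, sum_add_distrib]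

def chi (v : Fin 4 → Bool) : ℝ := ∏ i, (2 * bit (v i) - 1)

def p0 (v : Fin 4 → Bool) : ℝ := exp (100 * chi v) / ∑ u, exp (100 * chi u)

theorem result : ∃ p ∈ stdSimplex ℝ (Fin 4 → Bool), p ∉ closure (RBM 4 3) := by
  have hZ : 0 < ∑ u, exp (100 * chi u) := sum_pos (fun _ _ => exp_pos _) univ_nonempty
  have hp : ∀ v, 0 < p0 v := fun v => div_pos (exp_pos _) hZ
  refine ⟨p0, ⟨fun v => (hp v).le, by simp only [p0, ← sum_div]; exact div_self hZ.ne'⟩,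
    fun hc => ?_⟩
  have hU : IsOpen {q : (Fin 4 → Bool) → ℝ | ∀ v, q v ∈ Set.Ioo (p0 v * exp (-1)) (p0 v * exp 1)} := by
    simp only [Set.ofPred_forall]
    exact isOpen_iInter_of_finite fun v => isOpen_Ioo.preimage (continuous_apply v)
  obtain ⟨q, hq, W, b, c, rfl⟩ := mem_closure_iff.1 hc _ hU fun v =>
    ⟨mul_lt_of_lt_one_right (hp v) (exp_lt_one_iff.2 (by norm_num)),
      lt_mul_of_one_lt_right (hp v) (one_lt_exp_iff.2 (by norm_num))⟩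
  have hw : ∀ v, 0 < weight W b c v := fun v => sum_pos (fun _ _ => exp_pos _) univ_nonempty
  have hY : 0 < ∑ u, weight W b c u := sum_pos (fun v _ => hw v) univ_nonempty
  set Y := ∑ u, weight W b c u
  set Z := ∑ u, exp (100 * chi u) with hZZ
  have key : ∀ v, |log (weight W b c v) - log Y - (100 * chi v - log Z)| ≤ 1 := fun v => by
    have h1 := log_lt_log (mul_pos (hp v) (exp_pos _)) (hq v).1
    have h2 := log_lt_log (div_pos (hw v) hY) (hq v).2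
    rw [log_mul (hp v).ne' (exp_pos _).ne', log_exp, log_div (hw v).ne' hY.ne', p0,
      log_div (exp_pos _).ne' hZ.ne', log_exp] at h1 h2
    exact abs_le.2 ⟨by linarith, by linarith⟩
  let C : Fin 3 → ℝ := fun j => c j / 2 + (W 0 j + W 1 j + W 2 j + W 3 j) / 4
  let L : Fin 4 → ℝ := fun i => -(b i / 2 + (W i 0 + W i 1 + W i 2) / 4)
  refine noQ (t := 100) (c := C 0) (a1 := W 0 0 / 4) (a2 := W 1 0 / 4) (a3 := W 2 0 / 4)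
    (a4 := W 3 0 / 4) (d := C 1) (b1 := W 0 1 / 4) (b2 := W 1 1 / 4) (b3 := W 2 1 / 4)
    (b4 := W 3 1 / 4) (e := C 2) (f1 := W 0 2 / 4) (f2 := W 1 2 / 4) (f3 := W 2 2 / 4)
    (f4 := W 3 2 / 4) ⟨log Y - log Z - (b 0 + b 1 + b 2 + b 3) / 2 - (C 0 + C 1 + C 2),
      L 0, L 1, L 2, L 3, fun x1 x2 x3 x4 h1 h2 h3 h4 => ?_⟩ (by norm_num)
  have hS : ∀ x, S x → ∃ y, x = 2 * bit y - 1 := fun x hx => by
    rcases hx with rfl | rfl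
    exacts [⟨true, by norm_num [bit]⟩, ⟨false, by norm_num [bit]⟩]
  obtain ⟨y1, rfl⟩ := hS _ h1
  obtain ⟨y2, rfl⟩ := hS _ h2
  obtain ⟨y3, rfl⟩ := hS _ h3
  obtain ⟨y4, rfl⟩ := hS _ h4
  have k := abs_le.1 (key ![y1, y2, y3, y4])
  have pz : ∀ z : ℝ, 1 + exp z ≠ 0 := fun z => by positivity
  rw [weight_eq, log_mul (exp_pos _).ne' (prod_ne_zero_iff.2 fun _ _ => pz _), log_exp,
    log_prod fun _ _ => pz _] at k
  simp only [chi, Fin.sum_univ_four, Fin.sum_univ_three, Fin.prod_univ_four, Matrix.cons_val] at k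
  have r : ∀ j, g (C j) (W 0 j / 4) (W 1 j / 4) (W 2 j / 4) (W 3 j / 4) (2 * bit y1 - 1)
      (2 * bit y2 - 1) (2 * bit y3 - 1) (2 * bit y4 - 1) =
      |(c j + (bit y1 * W 0 j + bit y2 * W 1 j + bit y3 * W 2 j + bit y4 * W 3 j)) / 2| :=
    fun j => by unfold g; congr 1; simp only [C]; ring
  have s := fun j =>
    soft (c j + (bit y1 * W 0 j + bit y2 * W 1 j + bit y3 * W 2 j + bit y4 * W 3 j))
  rw [r, r, r]
  simp only [C, L]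
  exact abs_le.2 ⟨by linarith [k.1, k.2, (s 0).1, (s 0).2, (s 1).1, (s 1).2, (s 2).1, (s 2).2],
    by linarith [k.1, k.2, (s 0).1, (s 0).2, (s 1).1, (s 1).2, (s 2).1, (s 2).2]⟩

end

end Pool.Agent.Results.MP_dabbe0_pr.NotUniversal
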